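import Pool.Agent.Lib.MP_dfab40_lc.Union

/-!
`RCA₀ + RT²₂` is `Π¹₁`-conservative over `RCA₀ + BΣ⁰₂`.
-/

namespace Pool.Agent.Lib.MP_dfab40_lc.Variants.Conservative

open Pool.Agent.Lib.MP_dfab40_lc

theorem result (θ : Fm) (hθ : θ.Arith) (h : Prv (RCA0 ∪ {RT22}) [] θ.allS) :
    Prv (RCA0 ∪ BSigma2) [] θ.allS :=
  conservative hθ h

end Pool.Agent.Lib.MP_dfab40_lc.Variants.Conservative
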